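import Pool.Agent.E8helper11.FL.Stm

/-!
MP_edbb78_co: final assembly from COVER, PIECES and LADDER.
-/

open SimpleGraph

namespace FL11

theorem final (hCov : S_COVER) (hP : S_PIECES) (hLad : S_LADDER) : S_FINAL := by
  classical
  have hN : ∀ t K : ℕ, ∃ N : ℕ, 1 ≤ K → ∀ (V : Type) [Fintype V] (G : SimpleGraph V)
      (p : ℕ → V) (l : ℕ), G.Connected → IsoSeq G p l →
      (∃ D : ℕ → Set V, Pieces G p l K (12 * K) N D) →
      HasFatMinor K (pathGraph 2 □ pathGraph t) G := by
    intro t K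
    by_cases hK : 1 ≤ K
    · obtain ⟨N, hN⟩ := hLad t K hK
      exact ⟨N, fun _ => hN⟩
    · exact ⟨0, fun h => absurd h hK⟩
  choose Nf hNf using hN
  choose T0 hT0 using hP
  refine ⟨fun d t K => (T0 d K (12 * K) (Nf t K) + 1) * (2 * (2 * K + 1)), ?_⟩
  intro d t K hK V _ G _ hG hd hno
  have hdeg : DegLE G d := by
    intro x C hC
    refine le_trans ?_ ((G.degree_le_maxDegree x).trans hd)
    rw [← SimpleGraph.card_neighborFinset_eq_degree]
    apply Finset.card_le_card
    intro c hc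
    rw [SimpleGraph.mem_neighborFinset]
    exact hC c hc
  have hcov : ∀ v, RootCover G v ((T0 d K (12 * K) (Nf t K) + 1) * (2 * (2 * K + 1))) := by
    apply hCov V G K (T0 d K (12 * K) (Nf t K)) hK hG
    intro p l hp S0 Z hS0 hO hZ hsp
    by_contra hlt
    push Not at hlt
    apply hno
    apply hNf t K hK V G p l hG hp
    exact hT0 d K (12 * K) (Nf t K) V G p l hG hdeg S0 Z hS0 hO hZ hsp hlt.le
  refine ⟨?_, ?_, hcov⟩
  · exact Nat.sInf_le hcov
  · obtain ⟨v⟩ := hG.nonempty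
    exact Nat.sInf_le ⟨v, hcov v⟩

end FL11
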