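import Pool.Agent.E8helper11.FL.Stm

/-! FL: LINK piece. -/

open SimpleGraph FL11

namespace FL26

theorem walk_in {V : Type} {G : SimpleGraph V} {D : Set V} (h : (G.induce D).Connected)
    {a b : V} (ha : a ∈ D) (hb : b ∈ D) :
    ∃ w : G.Walk a b, ∀ z ∈ w.support, z ∈ D := by
  obtain ⟨w⟩ := h.preconnected ⟨a, ha⟩ ⟨b, hb⟩
  refine ⟨w.map (SimpleGraph.Embedding.induce D).toHom, ?_⟩
  intro z hz
  have hz' : z ∈ w.support.map (SimpleGraph.Embedding.induce D).toHom :=
    (SimpleGraph.Walk.support_map (SimpleGraph.Embedding.induce D).toHom w) ▸ hz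
  obtain ⟨y, _, rfl⟩ := List.mem_map.1 hz'
  exact y.2

theorem link : S_LINK := by
  intro V G N D hconn hedge hdisj j k hjk hkN
  classical
  -- walks from any point of D (j+1) to any point of D k' for j+1 ≤ k' < k
  have key : ∀ n, j + 1 + n < k → ∀ b ∈ D (j + 1), ∀ a ∈ D (j + 1 + n),
      ∃ w : G.Walk b a, ∀ z ∈ w.support, ∃ i, j < i ∧ i < k ∧ z ∈ D i := by
    intro n
    induction n with
    | zero =>
      intro hn b hb a ha
      obtain ⟨w, hw⟩ := walk_in (hconn (j + 1) (by omega)) hb (by simpa using ha)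
      exact ⟨w, fun z hz => ⟨j + 1, by omega, by omega, hw z hz⟩⟩
    | succ n ih =>
      intro hn b hb a ha
      obtain ⟨c, hc, e, he, hce⟩ := hedge (j + 1 + n) (by omega)
      obtain ⟨w1, hw1⟩ := ih (by omega) b hb c hc
      obtain ⟨w2, hw2⟩ := walk_in (hconn (j + 1 + (n + 1)) (by omega)) he ha
      refine ⟨w1.append (SimpleGraph.Walk.cons hce w2), ?_⟩
      intro z hz
      rw [SimpleGraph.Walk.mem_support_append_iff] at hz
      rcases hz with hz | hz
      · exact hw1 z hz
      · rw [SimpleGraph.Walk.support_cons, List.mem_cons] at hz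
        rcases hz with rfl | hz
        · exact ⟨j + 1 + n, by omega, by omega, hc⟩
        · exact ⟨j + 1 + (n + 1), by omega, by omega, hw2 z hz⟩
  obtain ⟨u, hu, b, hb, hub⟩ := hedge j (by omega)
  obtain ⟨a, ha, v, hv, hav⟩ := hedge (k - 1) (by omega)
  have hk1 : j + 1 + (k - 1 - (j + 1)) = k - 1 := by omega
  obtain ⟨w, hw⟩ := key (k - 1 - (j + 1)) (by omega) b hb a (by rw [hk1]; exact ha)
  have hk2 : k - 1 + 1 = k := by omega
  rw [hk2] at hv
  refine ⟨u, v, ((SimpleGraph.Walk.cons hub w).append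
    (SimpleGraph.Walk.cons hav SimpleGraph.Walk.nil)).bypass,
    SimpleGraph.Walk.bypass_isPath _, hu, hv, ?_⟩
  intro z hz
  have hz' := SimpleGraph.Walk.support_bypass_subset_support _ hz
  rw [SimpleGraph.Walk.mem_support_append_iff, SimpleGraph.Walk.support_cons, List.mem_cons,
    SimpleGraph.Walk.support_cons, List.mem_cons, SimpleGraph.Walk.support_nil,
    List.mem_singleton] at hz'
  rcases hz' with (h | h) | (h | h)
  · exact Or.inl h
  · exact Or.inr (Or.inr (hw z h))
  · subst h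
    exact Or.inr (Or.inr ⟨k - 1, by omega, by omega, ha⟩)
  · exact Or.inr (Or.inl h)

end FL26
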