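import Pool.Agent.E8helper11.FL.Stm

/-!
MP_edbb78_co: the pieces (assembly of the tree lemmas).
-/

open SimpleGraph

namespace FL11

section tree

variable {V : Type} {G : SimpleGraph V} {S : Finset V} {r : V} {par : V → V} {h : V → ℕ}

lemma iter_mem (hR : RTree G S r par h) {x : V} (hx : x ∈ S) (n : ℕ) : par^[n] x ∈ S := by
  induction n with
  | zero => simpa using hx
  | succ n ih => rw [Function.iterate_succ_apply']; exact hR.par_mem _ ih

lemma h_par (hR : RTree G S r par h) {x : V} (hx : x ∈ S) : h (par x) = h x - 1 := by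
  by_cases hxr : x = r
  · subst hxr; rw [hR.par_root, hR.height_root]
  · have := hR.height x hx hxr; omega

lemma h_iter (hR : RTree G S r par h) {x : V} (hx : x ∈ S) (n : ℕ) :
    h (par^[n] x) = h x - n := by
  induction n with
  | zero => simp
  | succ n ih =>
    rw [Function.iterate_succ_apply', h_par hR (iter_mem hR hx n), ih]; omega

lemma eq_root (hR : RTree G S r par h) {x : V} (hx : x ∈ S) (h0 : h x = 0) : x = r := by
  by_contra hne
  have := hR.height x hx hne
  omega

lemma reach_root (hR : RTree G S r par h) {x : V} (hx : x ∈ S) : par^[h x] x = r := by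
  apply eq_root hR (iter_mem hR hx _)
  rw [h_iter hR hx]; omega

lemma iter_root (hR : RTree G S r par h) (n : ℕ) : par^[n] r = r := by
  induction n with
  | zero => rfl
  | succ n ih => rw [Function.iterate_succ_apply', ih, hR.par_root]

lemma root_of_cycle (hR : RTree G S r par h) {x : V} (hx : x ∈ S) {a : ℕ}
    (ha : par^[a + 1] x = x) : x = r := by
  apply eq_root hR hx
  have := h_iter hR hx (a + 1)
  rw [ha] at this
  omega

lemma dist_iter (hG : G.Connected) (hR : RTree G S r par h) {x : V} (hx : x ∈ S) (n : ℕ) :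
    G.dist x (par^[n] x) ≤ n := by
  induction n with
  | zero => simp
  | succ n ih =>
    rw [Function.iterate_succ_apply']
    have h1 := iter_mem hR hx n
    by_cases hr : par^[n] x = r
    · rw [hr, hR.par_root, ← hr]; omega
    · have h2 := hR.adj _ h1 hr
      have h3 := hG.dist_triangle (u := x) (v := par^[n] x) (w := par (par^[n] x))
      have h4 : G.dist (par^[n] x) (par (par^[n] x)) = 1 := SimpleGraph.dist_eq_one_iff_adj.mpr h2
      omega

end tree

theorem pieces (hB : S_BALL) (hT : S_TREE) (hM : S_MINL) (hC : S_CHAIN) (hS : S_SEL) :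
    S_PIECES := by
  classical
  intro d0 K L N
  obtain ⟨d, hd1, hd0⟩ : ∃ d, 1 ≤ d ∧ d0 ≤ d := ⟨max 1 d0, le_max_left _ _, le_max_right _ _⟩
  obtain ⟨m, hm⟩ := hS (fun i => (d * thr d i + 1) * (d + 1) ^ (2 * K) * (d + 1) ^ (L + 2 * K)) N
  refine ⟨max 2 (thr d m), ?_⟩
  intro V _ G p l hG hdeg S0 Z hS0 hO hZ hsp hcard
  have hdeg' : DegLE G d := fun x C hC => (hdeg x C hC).trans hd0
  obtain ⟨S, r, par, h, hR, hZS, hSO, hmin⟩ := hT V G S0 Z (Om G p l K) hS0 hZ hO
  obtain ⟨hc1, hc2⟩ := hM V G S Z (Om G p l K) r par h hR hZS hSO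
    ((le_max_left _ _).trans hcard) hmin
  have hchild : ∀ x ∈ S, ∀ C : Finset V, (∀ c ∈ C, c ∈ S ∧ c ≠ r ∧ par c = x) → C.card ≤ d := by
    intro x hx C hCc
    apply hdeg' x C
    intro c hc
    obtain ⟨h1, h2, h3⟩ := hCc c hc
    have := hR.adj c h1 h2
    rw [h3] at this
    exact this.symm
  obtain ⟨y, hyS, hyd, hynode, hysp, hyn⟩ := hC V G S r par h (Sp G p l K) d hd1 hR
    (fun x hx hx' => hsp x (hc1 x hx hx')) hchild m ⟨Z, hZS, hsp, (le_max_right _ _).trans hcard⟩
  -- monotonicity of descendants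
  have hmono : ∀ (x : V) (i j : ℕ), i ≤ j → j ≤ m → (∃ a, par^[a] x = y i) →
      ∃ a, par^[a] x = y j := by
    intro x i j hij hjm hx
    induction j, hij using Nat.le_induction with
    | base => exact hx
    | succ j hij ih =>
      obtain ⟨a, ha⟩ := ih (by omega)
      obtain ⟨b, hb⟩ := hyd j (by omega)
      refine ⟨b + a, ?_⟩
      rw [Function.iterate_add_apply, ha, hb]
  -- key localisation
  have hkey : ∀ (i : ℕ), i < m → ∀ x ∈ S, ∀ a, par^[a] x = y i → ∀ y' ∈ S,
      (∀ b, par^[b] y' ≠ y (i + 1)) → ∀ w : G.Walk x y', (∀ z ∈ w.support, z ∈ Om G p l K) →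
      w.length ≤ 2 * K →
      ∃ s, (s = y i ∨ (s ∈ S ∧ IsNode S r par (Sp G p l K) s ∧ ∃ b, par^[b] s = y i)) ∧
        G.dist x s ≤ 2 * K := by
    intro i him x hx a ha y' hy' hy'2 w hw hwl
    obtain ⟨ks, hnode, k', hk'⟩ := hyn i him
    have hex : ∃ k, IsNode S r par (Sp G p l K) (par^[k] x) := by
      refine ⟨ks + 1 + a, ?_⟩
      rw [Function.iterate_add_apply, ha]
      exact hnode
    have hk0 := Nat.find_spec hex
    have hkmin : ∀ j, j < Nat.find hex → ¬ IsNode S r par (Sp G p l K) (par^[j] x) :=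
      fun j hj => Nat.find_min hex hj
    have hkle : Nat.find hex ≤ ks + 1 + a := by
      apply Nat.find_min' hex
      rw [Function.iterate_add_apply, ha]
      exact hnode
    set k0 := Nat.find hex with hk0def
    by_cases hk00 : k0 = 0
    · refine ⟨x, Or.inr ⟨hx, ?_, a, ha⟩, by simp⟩
      rw [hk00] at hk0
      simpa using hk0
    have hk1 : 1 ≤ k0 := Nat.one_le_iff_ne_zero.mpr hk00
    have hle : k0 ≤ w.length := by
      apply hc2 x hx k0 hk1 ?_ y' hy' ?_ w hw
      · intro j hj1 hj2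
        refine ⟨fun hz => hkmin j hj2 (Or.inl (hsp _ hz)), ?_⟩
        intro c hc hcr hpc
        by_contra hne
        have hj' : par (par^[j - 1] x) = par^[j] x := by
          rw [← Function.iterate_succ_apply' par (j - 1) x]
          have : (j - 1).succ = j := by omega
          rw [this]
        have hnr : par^[j - 1] x ≠ r := by
          intro hr
          have : par^[k0] x = par^[j - 1] x := by
            have : k0 = (k0 - (j - 1)) + (j - 1) := by omega
            rw [this, Function.iterate_add_apply, hr, iter_root hR]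
          rw [this] at hk0
          exact hkmin (j - 1) (by omega) hk0
        exact hkmin j hj2 (Or.inr ⟨c, hc, par^[j - 1] x, iter_mem hR hx _, hne, hcr, hnr, hpc, hj'⟩)
      · intro i' hi'
        apply hy'2 (k' + ((ks + 1 + a - (k0 - 1)) + i'))
        have h5 : par^[(ks + 1 + a - (k0 - 1)) + i'] y' = par^[ks + 1 + a] x := by
          rw [Function.iterate_add_apply, hi', ← Function.iterate_add_apply]
          congr 1
          omega
        rw [Function.iterate_add_apply, h5, Function.iterate_add_apply, ha, hk']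
    by_cases hak : a ≤ k0
    · refine ⟨y i, Or.inl rfl, ?_⟩
      have := dist_iter hG hR hx a
      rw [ha] at this
      omega
    · push Not at hak
      refine ⟨par^[k0] x, Or.inr ⟨iter_mem hR hx _, hk0, a - k0, ?_⟩, ?_⟩
      · rw [← Function.iterate_add_apply]
        have : a - k0 + k0 = a := by omega
        rw [this, ha]
      · exact (dist_iter hG hR hx k0).trans (by omega)
  -- the conflict relation
  let Cf : ℕ → ℕ → Prop := fun i k => ∃ x ∈ S, ∃ y' ∈ S, (∃ a, par^[a] x = y i) ∧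
    (∃ a, par^[a] y' = y k) ∧ (∀ a, par^[a] y' ≠ y (k - 1)) ∧
    ((Sp G p l K x ∧ G.dist x y' ≤ L) ∨
      ∃ w : G.Walk x y', (∀ z ∈ w.support, z ∈ Om G p l K) ∧ w.length ≤ 2 * K)
  obtain ⟨s, hs1, hs2, hs3⟩ := hm Cf (by
    intro i him T hTT
    -- nodes below y i
    let Nd : Finset V := S.filter (fun x => IsNode S r par (Sp G p l K) x ∧ ∃ k, par^[k] x = y i)
    have hNd : Nd.card ≤ d * thr d i := by
      apply hynode i him
      intro x hx
      have := Finset.mem_filter.mp hx
      exact ⟨this.1, this.2.1, this.2.2⟩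
    let Nd' : Finset V := insert (y i) Nd
    have hNd' : Nd'.card ≤ d * thr d i + 1 := (Finset.card_insert_le _ _).trans (by omega)
    let ball : V → ℕ → Finset V := fun x n => Finset.univ.filter (fun z => G.dist x z ≤ n)
    have hball : ∀ x n, (ball x n).card ≤ (d + 1) ^ n := by
      intro x n
      apply hB V G d hG hdeg' x n
      intro c hc
      exact (Finset.mem_filter.mp hc).2
    let W : Finset V := Nd'.biUnion (fun s => ball s (2 * K))
    have hW : W.card ≤ (d * thr d i + 1) * (d + 1) ^ (2 * K) := by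
      calc W.card ≤ ∑ s ∈ Nd', (ball s (2 * K)).card := Finset.card_biUnion_le
        _ ≤ ∑ s ∈ Nd', (d + 1) ^ (2 * K) := Finset.sum_le_sum (fun s _ => hball _ _)
        _ = Nd'.card * (d + 1) ^ (2 * K) := by rw [Finset.sum_const, smul_eq_mul]
        _ ≤ _ := Nat.mul_le_mul_right _ hNd'
    let Y : Finset V := W.biUnion (fun x => ball x (L + 2 * K))
    have hY : Y.card ≤ (d * thr d i + 1) * (d + 1) ^ (2 * K) * (d + 1) ^ (L + 2 * K) := by
      calc Y.card ≤ ∑ s ∈ W, (ball s (L + 2 * K)).card := Finset.card_biUnion_le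
        _ ≤ ∑ s ∈ W, (d + 1) ^ (L + 2 * K) := Finset.sum_le_sum (fun s _ => hball _ _)
        _ = W.card * (d + 1) ^ (L + 2 * K) := by rw [Finset.sum_const, smul_eq_mul]
        _ ≤ _ := Nat.mul_le_mul_right _ hW
    refine le_trans ?_ hY
    have hch : ∀ k ∈ T, ∃ y' ∈ Y, (∃ a, par^[a] y' = y k) ∧ (∀ a, par^[a] y' ≠ y (k - 1)) := by
      intro k hk
      obtain ⟨hk1, hk2, x, hx, y', hy', ⟨a, ha⟩, hyk, hyk', hcf⟩ := hTT k hk
      refine ⟨y', ?_, hyk, hyk'⟩
      have hyi : ∀ b, par^[b] y' ≠ y (i + 1) := by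
        intro b hb
        obtain ⟨c, hc⟩ := hmono y' (i + 1) (k - 1) (by omega) (by omega) ⟨b, hb⟩
        exact hyk' c hc
      have hxW : x ∈ W := by
        rcases hcf with ⟨hspx, _⟩ | ⟨w, hw, hwl⟩
        · refine Finset.mem_biUnion.mpr ⟨x, ?_, ?_⟩
          · exact Finset.mem_insert_of_mem (Finset.mem_filter.mpr ⟨hx, Or.inl hspx, a, ha⟩)
          · exact Finset.mem_filter.mpr ⟨Finset.mem_univ _, by simp⟩
        · obtain ⟨s, hs, hds⟩ := hkey i (by omega) x hx a ha y' hy' hyi w hw hwl
          refine Finset.mem_biUnion.mpr ⟨s, ?_, ?_⟩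
          · rcases hs with rfl | ⟨h1, h2, h3⟩
            · exact Finset.mem_insert_self _ _
            · exact Finset.mem_insert_of_mem (Finset.mem_filter.mpr ⟨h1, h2, h3⟩)
          · exact Finset.mem_filter.mpr ⟨Finset.mem_univ _, by rw [SimpleGraph.dist_comm]; exact hds⟩
      refine Finset.mem_biUnion.mpr ⟨x, hxW, Finset.mem_filter.mpr ⟨Finset.mem_univ _, ?_⟩⟩
      rcases hcf with ⟨_, hd⟩ | ⟨w, _, hwl⟩
      · omega
      · have := SimpleGraph.dist_le w; omega
    haveI : Nonempty V := ⟨r⟩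
    choose! f hf1 hf2 hf3 using hch
    apply Finset.card_le_card_of_injOn f (fun k hk => Finset.mem_coe.mpr (hf1 k (Finset.mem_coe.mp hk)))
    have haux : ∀ k ∈ T, ∀ k' ∈ T, k < k' → f k ≠ f k' := by
      intro k hk k' hk' hlt heq
      obtain ⟨a, ha⟩ := hmono (f k) k (k' - 1) (by omega) (by have := (hTT k' hk').2.1; omega)
        (hf2 k hk)
      rw [heq] at ha
      exact hf3 k' hk' a ha
    intro k hk k' hk' heq
    rcases lt_trichotomy k k' with hlt | hlt | hlt
    · exact absurd heq (haux k hk k' hk' hlt)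
    · exact hlt
    · exact absurd heq.symm (haux k' hk' k hk hlt))
  have hsmono : ∀ i j, i ≤ j → j ≤ N → s i ≤ s j := by
    intro i j hij hj
    induction j, hij using Nat.le_induction with
    | base => exact le_rfl
    | succ j hij ih => exact (ih (by omega)).trans (hs1 j (by omega)).le
  have hsm : ∀ j, j ≤ N → s j ≤ m := fun j hj => (hsmono j N hj le_rfl).trans hs2
  -- y (s (j+1)) is not a descendant of y (s j)
  have hnot : ∀ i j, i < j → j ≤ m → ∀ a, par^[a] (y j) ≠ y i := by
    intro i j hij hjm a ha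
    obtain ⟨x, hxS, _, ⟨c, hc⟩, hx'⟩ := hysp i (by omega)
    obtain ⟨b, hb⟩ := hmono x (i + 1) j (by omega) hjm ⟨c, hc⟩
    apply hx' (a + b)
    rw [Function.iterate_add_apply, hb, ha]
  refine ⟨fun j => {x | x ∈ S ∧ (∃ a, par^[a] x = y (s (j + 1))) ∧ ∀ a, par^[a] x ≠ y (s j)},
    ?_⟩
  have htop : ∀ j < N, y (s (j + 1)) ∈ S ∧ (∃ a, par^[a] (y (s (j + 1))) = y (s (j + 1))) ∧
      ∀ a, par^[a] (y (s (j + 1))) ≠ y (s j) := by
    intro j hj
    refine ⟨hyS _ (hsm _ (by omega)), ⟨0, rfl⟩, ?_⟩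
    exact hnot (s j) (s (j + 1)) (hs1 j hj) (hsm _ (by omega))
  have hsepaux : ∀ j k, j + 2 ≤ k → k < N → ∀ x ∈ S, (∃ a, par^[a] x = y (s (j + 1))) →
      ∀ y' ∈ S, (∃ a, par^[a] y' = y (s (k + 1))) → (∀ a, par^[a] y' ≠ y (s k)) →
      ¬ ((Sp G p l K x ∧ G.dist x y' ≤ L) ∨
      ∃ w : G.Walk x y', (∀ z ∈ w.support, z ∈ Om G p l K) ∧ w.length ≤ 2 * K) := by
    intro j k hjk hkN x hx hxa y' hy' hy'1 hy'2 hcon
    have hex : ∃ κ, ∃ a, par^[a] y' = y κ := ⟨_, hy'1⟩
    have hκ := Nat.find_spec hex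
    have hκmin : ∀ i, i < Nat.find hex → ¬ ∃ a, par^[a] y' = y i :=
      fun i hi => Nat.find_min hex hi
    have hκle : Nat.find hex ≤ s (k + 1) := Nat.find_min' hex hy'1
    set κ := Nat.find hex
    have hκgt : s k < κ := by
      by_contra hle
      push Not at hle
      obtain ⟨a, ha⟩ := hmono y' κ (s k) hle (hsm _ (by omega)) hκ
      exact hy'2 a ha
    refine hs3 (j + 1) κ (by omega) ?_ ?_ ⟨x, hx, y', hy', hxa, hκ, ?_, hcon⟩
    · exact lt_of_le_of_lt (hsmono (j + 2) k hjk (by omega)) hκgt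
    · exact hκle.trans (hsmono (k + 1) N (by omega) le_rfl)
    · intro a ha
      exact hκmin (κ - 1) (by omega) ⟨a, ha⟩
  constructor
  · -- conn
    intro j hj
    have hreach : ∀ (n : ℕ) (x : V) (hx : x ∈ {x | x ∈ S ∧ (∃ a, par^[a] x = y (s (j + 1))) ∧
        ∀ a, par^[a] x ≠ y (s j)}), par^[n] x = y (s (j + 1)) →
        (G.induce {x | x ∈ S ∧ (∃ a, par^[a] x = y (s (j + 1))) ∧
        ∀ a, par^[a] x ≠ y (s j)}).Reachable ⟨x, hx⟩ ⟨y (s (j + 1)), htop j hj⟩ := by
      intro n
      induction n with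
      | zero =>
        intro x hx hxn
        have : x = y (s (j + 1)) := hxn
        subst this
        exact Reachable.refl _
      | succ n ih =>
        intro x hx hxn
        by_cases hxt : x = y (s (j + 1))
        · subst hxt
          exact Reachable.refl _
        · have hxr : x ≠ r := by
            intro hr
            rw [hr, iter_root hR] at hxn
            exact hxt (hr.trans hxn)
          have hadj := hR.adj x hx.1 hxr
          have hpx : par x ∈ {x | x ∈ S ∧ (∃ a, par^[a] x = y (s (j + 1))) ∧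
              ∀ a, par^[a] x ≠ y (s j)} := by
            refine ⟨hR.par_mem x hx.1, ⟨n, ?_⟩, ?_⟩
            · rw [← Function.iterate_succ_apply]; exact hxn
            · intro a ha
              rw [← Function.iterate_succ_apply] at ha
              exact hx.2.2 _ ha
          have h1 := ih (par x) hpx (by rw [← Function.iterate_succ_apply]; exact hxn)
          have h2 : (G.induce {x | x ∈ S ∧ (∃ a, par^[a] x = y (s (j + 1))) ∧
              ∀ a, par^[a] x ≠ y (s j)}).Adj ⟨x, hx⟩ ⟨par x, hpx⟩ := by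
            simpa using hadj
          exact h2.reachable.trans h1
    rw [SimpleGraph.connected_iff]
    refine ⟨?_, ⟨⟨y (s (j + 1)), htop j hj⟩⟩⟩
    intro x x'
    obtain ⟨x, hx⟩ := x
    obtain ⟨x', hx'⟩ := x'
    obtain ⟨n, hn⟩ := hx.2.1
    obtain ⟨n', hn'⟩ := hx'.2.1
    exact (hreach n x hx hn).trans (hreach n' x' hx' hn').symm
  · -- far
    intro j hj x hx
    exact hSO hx.1
  · -- spec
    intro j hj
    have hjj := hs1 j hj
    have hjm := hsm (j + 1) (by omega)
    obtain ⟨x, hxS, hxs, hx1, hx2⟩ := hysp (s j) (by omega)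
    refine ⟨x, ⟨hxS, ?_, hx2⟩, hxs⟩
    exact hmono x (s j + 1) (s (j + 1)) (by omega) hjm hx1
  · -- edge
    intro j hj
    have hjj : s (j + 1) < s (j + 2) := hs1 (j + 1) (by omega)
    have hjm := hsm (j + 2) (by omega)
    refine ⟨y (s (j + 1)), htop j (by omega), par (y (s (j + 1))), ?_, ?_⟩
    · have hyjS := hyS (s (j + 1)) (hsm _ (by omega))
      have hyjr : y (s (j + 1)) ≠ r := by
        intro hr
        obtain ⟨x, hxS, _, _, hx2⟩ := hysp (s (j + 1)) (by omega)
        exact hx2 _ ((reach_root hR hxS).trans hr.symm)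
      refine ⟨hR.par_mem _ hyjS, ?_, ?_⟩
      · obtain ⟨a, ha⟩ := hmono (y (s (j + 1))) (s (j + 1)) (s (j + 2)) hjj.le hjm ⟨0, rfl⟩
        rcases Nat.eq_zero_or_pos a with ha0 | ha0
        · subst ha0
          exfalso
          have h1 := hnot (s (j + 1)) (s (j + 2)) hjj hjm 0
          exact h1 ha.symm
        · refine ⟨a - 1, ?_⟩
          rw [← Function.iterate_succ_apply]
          have : (a - 1).succ = a := by omega
          rw [this]
          exact ha
      · intro a ha
        rw [← Function.iterate_succ_apply] at ha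
        exact hyjr (root_of_cycle hR hyjS ha)
    · apply hR.adj _ (hyS _ (hsm _ (by omega)))
      intro hr
      obtain ⟨x, hxS, _, _, hx2⟩ := hysp (s (j + 1)) (by omega)
      exact hx2 _ ((reach_root hR hxS).trans hr.symm)
  · -- disj
    intro j k hjk hk
    rw [Set.disjoint_left]
    intro x hx hx'
    obtain ⟨a, ha⟩ := hmono x (s (j + 1)) (s k) (hsmono _ _ (by omega) (by omega))
      (hsm _ (by omega)) hx.2.1
    exact hx'.2.2 a ha
  · -- sep1
    intro j k hjk hk x hx y' hy' hspx
    by_contra hle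
    push Not at hle
    exact hsepaux j k hjk hk x hx.1 hx.2.1 y' hy'.1 hy'.2.1 hy'.2.2 (Or.inl ⟨hspx, hle⟩)
  · -- sep2
    intro j k hjk hk x hx y' hy' w hw
    by_contra hle
    push Not at hle
    exact hsepaux j k hjk hk x hx.1 hx.2.1 y' hy'.1 hy'.2.1 hy'.2.2 (Or.inr ⟨w, hw, hle⟩)

end FL11
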