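import Pool.Agent.E8helper11.FL.Stm

/-! FL: RUNG piece. -/

open SimpleGraph FL11

namespace FL26

/-- a vertex on a shortest walk splits the distance -/
theorem dist_split {V : Type} {G : SimpleGraph V} (hG : G.Connected) {a b : V} (w : G.Walk a b)
    (hw : w.length = G.dist a b) {z : V} (hz : z ∈ w.support) :
    G.dist a z + G.dist z b = G.dist a b := by
  classical
  have h1 := w.take_spec hz
  have h2 : (w.takeUntil z hz).length + (w.dropUntil z hz).length = w.length := by
    conv_rhs => rw [← h1]
    rw [SimpleGraph.Walk.length_append]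
  have h3 := SimpleGraph.dist_le (w.takeUntil z hz)
  have h4 := SimpleGraph.dist_le (w.dropUntil z hz)
  have h5 := hG.dist_triangle (u := a) (v := z) (w := b)
  omega

theorem rung : S_RUNG := by
  intro V G p l K B x hG hK hp hB hx
  classical
  -- the nearest vertex
  obtain ⟨i, hi, hmin⟩ : ∃ i ≤ l, ∀ i' ≤ l, G.dist x (p i) ≤ G.dist x (p i') := by
    obtain ⟨i, hi, h⟩ := Finset.exists_min_image (Finset.range (l + 1)) (fun i => G.dist x (p i))
      ⟨0, by simp⟩
    exact ⟨i, by have := Finset.mem_range.1 hi; omega,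
      fun i' hi' => h i' (Finset.mem_range.2 (by omega))⟩
  refine ⟨i, hi, hmin, ?_⟩
  -- the last vertex in B
  have hex : ∃ n, ∃ u ∈ B, G.dist x u + G.dist u (p i) = G.dist x (p i) ∧ G.dist u (p i) = n :=
    ⟨G.dist x (p i), x, hx, by simp, rfl⟩
  obtain ⟨u, hu, hux, hun⟩ := Nat.find_spec hex
  have hlast : ∀ z ∈ B, G.dist x z + G.dist z (p i) = G.dist x (p i) →
      G.dist u (p i) ≤ G.dist z (p i) := by
    intro z hz hzx
    rw [hun]
    exact Nat.find_min' hex ⟨z, hz, hzx, rfl⟩
  obtain ⟨q, hq, hqlen⟩ := hG.exists_path_of_dist u (p i)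
  have hs : ∀ z ∈ q.support, G.dist u z + G.dist z (p i) = G.dist u (p i) :=
    fun z hz => dist_split hG q hqlen hz
  have hxz : ∀ z ∈ q.support, G.dist x z + G.dist z (p i) = G.dist x (p i) := by
    intro z hz
    have h1 := hs z hz
    have h2 := hG.dist_triangle (u := x) (v := u) (w := z)
    have h3 := hG.dist_triangle (u := x) (v := z) (w := p i)
    omega
  refine ⟨u, q, hq, hu, ?_, ?_, hxz, ?_⟩
  · intro z hz hzB
    have h1 := hs z hz
    have h2 := hlast z hzB (hxz z hz)
    have h3 : G.dist u z = 0 := by omega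
    exact ((hG.dist_eq_zero_iff).1 h3).symm
  · intro z hz i' hi' hzi
    have h1 := hxz z hz
    have h2 := hmin i' hi'
    rw [← hzi] at h2
    have h3 : G.dist z (p i) = 0 := by omega
    rw [hzi] at h3
    rcases le_total i i' with h | h
    · have := hp i i' h hi'
      rw [SimpleGraph.dist_comm] at this
      omega
    · have := hp i' i h hi
      omega
  · intro z hz i' hi'
    have h1 := hxz z hz
    have h2 := hmin i' hi'
    have h3 := hG.dist_triangle (u := x) (v := z) (w := p i')
    omega

end FL26
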