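import Mathlib

/-!
MP_edbb78_co: isometric path complexity of bounded-degree graphs without fat ladder minors.
Definitions and the statements of the pieces.
-/

open SimpleGraph

namespace FL11

variable {V : Type}

/-- The walk `w` is an isometric path: it is a path whose length is the distance of its ends. -/
def IsIsometric {G : SimpleGraph V} {a b : V} (w : G.Walk a b) : Prop :=
  w.IsPath ∧ w.length = G.dist a b

/-- Every isometric path of `G` has its vertices covered by at most `k` `v`-rooted isometric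
paths. -/
def RootCover (G : SimpleGraph V) (v : V) (k : ℕ) : Prop :=
  ∀ (a b : V) (q : G.Walk a b), IsIsometric q →
    ∃ n : ℕ, n ≤ k ∧ ∃ F : Fin n → Σ w : V, G.Walk v w,
      (∀ i, IsIsometric (F i).2) ∧ ∀ x ∈ q.support, ∃ i, x ∈ (F i).2.support

/-- isometric path complexity -/
noncomputable def ipco (G : SimpleGraph V) : ℕ := sInf {k | ∃ v, RootCover G v k}

/-- strong isometric path complexity -/
noncomputable def sipco (G : SimpleGraph V) : ℕ := sInf {k | ∀ v, RootCover G v k}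

/-- The sets `A` and `B` are at distance at least `K` in `G`. -/
def FarS (G : SimpleGraph V) (K : ℕ) (A B : Set V) : Prop :=
  ∀ a ∈ A, ∀ b ∈ B, K ≤ G.dist a b

/-- `G` contains `H` as a `K`-fat minor: branch sets `B x` (connected), for every edge `e` of `H`
the vertex set `P e` of a path of `G` joining the branch sets of the two ends of `e` and meeting
them only in its end-vertices, any two of these sets being at distance at least `K`, except the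
pairs `(B x, P e)` with `x` an end of `e`. -/
def HasFatMinor {W : Type} (K : ℕ) (H : SimpleGraph W) (G : SimpleGraph V) : Prop :=
  ∃ (B : W → Set V) (P : Sym2 W → Set V),
    (∀ x, (G.induce (B x)).Connected) ∧
    (∀ e ∈ H.edgeSet, ∃ (x y : W) (u v : V) (q : G.Walk u v), e = s(x, y) ∧ q.IsPath ∧
      P e = {z | z ∈ q.support} ∧ u ∈ B x ∧ v ∈ B y ∧
      ∀ z ∈ q.support, z ∈ B x ∪ B y → z = u ∨ z = v) ∧
    (∀ x y, x ≠ y → FarS G K (B x) (B y)) ∧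
    (∀ e ∈ H.edgeSet, ∀ e' ∈ H.edgeSet, e ≠ e' → FarS G K (P e) (P e')) ∧
    (∀ x, ∀ e ∈ H.edgeSet, x ∉ e → FarS G K (B x) (P e))

/-- `p 0, p 1, ..., p l` is an isometric path of `G`. -/
def IsoSeq (G : SimpleGraph V) (p : ℕ → V) (l : ℕ) : Prop :=
  ∀ i j, i ≤ j → j ≤ l → G.dist (p i) (p j) = j - i

/-- all degrees of `G` are at most `d` -/
def DegLE (G : SimpleGraph V) (d : ℕ) : Prop :=
  ∀ (x : V) (C : Finset V), (∀ c ∈ C, G.Adj x c) → C.card ≤ d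

/-- `x` is special: at distance less than `2K` from the path. -/
def Sp (G : SimpleGraph V) (p : ℕ → V) (l K : ℕ) (x : V) : Prop :=
  ∃ i ≤ l, G.dist x (p i) < 2 * K

/-- the vertices at distance at least `K` from the path -/
def Om (G : SimpleGraph V) (p : ℕ → V) (l K : ℕ) : Set V :=
  {x | ∀ i ≤ l, K ≤ G.dist x (p i)}

/-- `par` and `h` make the finite set `S` a rooted tree of `G` with root `r`: every `x ≠ r` of `S`
has a parent `par x ∈ S` adjacent to it, of height one less. -/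
structure RTree (G : SimpleGraph V) (S : Finset V) (r : V) (par : V → V) (h : V → ℕ) : Prop where
  root_mem : r ∈ S
  par_mem : ∀ x ∈ S, par x ∈ S
  par_root : par r = r
  adj : ∀ x ∈ S, x ≠ r → G.Adj x (par x)
  height : ∀ x ∈ S, x ≠ r → h (par x) + 1 = h x
  height_root : h r = 0

/-- node of the tree: special, or with at least two children -/
def IsNode (S : Finset V) (r : V) (par : V → V) (sp : V → Prop) (x : V) : Prop :=
  sp x ∨ ∃ c ∈ S, ∃ c' ∈ S, c ≠ c' ∧ c ≠ r ∧ c' ≠ r ∧ par c = x ∧ par c' = x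

/-- thresholds -/
def thr (d : ℕ) : ℕ → ℕ
  | 0 => 1
  | i + 1 => d * thr d i + 1

/-- The pieces: connected sets `D 0, ..., D (N-1)`, consecutive ones adjacent, all at distance at
least `K` from the path, each with a special vertex, and non-consecutive ones without conflict. -/
structure Pieces (G : SimpleGraph V) (p : ℕ → V) (l K L N : ℕ) (D : ℕ → Set V) : Prop where
  conn : ∀ j < N, (G.induce (D j)).Connected
  far : ∀ j < N, D j ⊆ Om G p l K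
  spec : ∀ j < N, ∃ x ∈ D j, Sp G p l K x
  edge : ∀ j, j + 1 < N → ∃ a ∈ D j, ∃ b ∈ D (j + 1), G.Adj a b
  disj : ∀ j k, j < k → k < N → Disjoint (D j) (D k)
  sep1 : ∀ j k, j + 2 ≤ k → k < N → ∀ x ∈ D j, ∀ y ∈ D k, Sp G p l K x → L < G.dist x y
  sep2 : ∀ j k, j + 2 ≤ k → k < N → ∀ x ∈ D j, ∀ y ∈ D k, ∀ w : G.Walk x y,
    (∀ z ∈ w.support, z ∈ Om G p l K) → 2 * K < w.length

/-! ### The pieces -/

/-- BALL -/
def S_BALL : Prop := ∀ (V : Type) [Fintype V] (G : SimpleGraph V) (d : ℕ), G.Connected →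
  DegLE G d → ∀ (x : V) (r : ℕ) (C : Finset V), (∀ c ∈ C, G.dist x c ≤ r) → C.card ≤ (d + 1) ^ r

/-- COVER -/
def S_COVER : Prop := ∀ (V : Type) [Fintype V] (G : SimpleGraph V) (K T : ℕ), 1 ≤ K →
  G.Connected →
  (∀ (p : ℕ → V) (l : ℕ), IsoSeq G p l → ∀ S0 Z : Finset V,
    (G.induce (S0 : Set V)).Connected → (S0 : Set V) ⊆ Om G p l K → Z ⊆ S0 →
    (∀ z ∈ Z, Sp G p l K z) → Z.card ≤ T) →
  ∀ v, RootCover G v ((T + 1) * (2 * (2 * K + 1)))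

/-- TREE -/
def S_TREE : Prop := ∀ (V : Type) [Fintype V] (G : SimpleGraph V) (S0 Z : Finset V) (O : Set V),
  (G.induce (S0 : Set V)).Connected → Z ⊆ S0 → (S0 : Set V) ⊆ O →
  ∃ (S : Finset V) (r : V) (par : V → V) (h : V → ℕ), RTree G S r par h ∧ Z ⊆ S ∧
    (S : Set V) ⊆ O ∧ ∀ S' : Finset V, (G.induce (S' : Set V)).Connected → Z ⊆ S' →
      (S' : Set V) ⊆ O → S.card ≤ S'.card

/-- MINL -/
def S_MINL : Prop := ∀ (V : Type) [Fintype V] (G : SimpleGraph V) (S Z : Finset V) (O : Set V)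
  (r : V) (par : V → V) (h : V → ℕ), RTree G S r par h → Z ⊆ S → (S : Set V) ⊆ O → 2 ≤ Z.card →
  (∀ S' : Finset V, (G.induce (S' : Set V)).Connected → Z ⊆ S' →
      (S' : Set V) ⊆ O → S.card ≤ S'.card) →
  (∀ x ∈ S, (∀ c ∈ S, c ≠ r → par c ≠ x) → x ∈ Z) ∧
  (∀ x ∈ S, ∀ k, 1 ≤ k →
    (∀ j, 1 ≤ j → j < k → par^[j] x ∉ Z ∧ ∀ c ∈ S, c ≠ r → par c = par^[j] x →
      c = par^[j - 1] x) →
    ∀ y ∈ S, (∀ i, par^[i] y ≠ par^[k - 1] x) →
    ∀ w : G.Walk x y, (∀ z ∈ w.support, z ∈ O) → k ≤ w.length)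

/-- CHAIN -/
def S_CHAIN : Prop := ∀ (V : Type) [Fintype V] (G : SimpleGraph V) (S : Finset V) (r : V)
  (par : V → V) (h : V → ℕ) (sp : V → Prop) (d : ℕ), 1 ≤ d → RTree G S r par h →
  (∀ x ∈ S, (∀ c ∈ S, c ≠ r → par c ≠ x) → sp x) →
  (∀ x ∈ S, ∀ C : Finset V, (∀ c ∈ C, c ∈ S ∧ c ≠ r ∧ par c = x) → C.card ≤ d) →
  ∀ m : ℕ, (∃ N : Finset V, N ⊆ S ∧ (∀ x ∈ N, sp x) ∧ thr d m ≤ N.card) →
  ∃ y : ℕ → V, (∀ i ≤ m, y i ∈ S) ∧ (∀ i < m, ∃ k, par^[k] (y i) = y (i + 1)) ∧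
    (∀ i ≤ m, ∀ N : Finset V, (∀ x ∈ N, x ∈ S ∧ IsNode S r par sp x ∧ ∃ k, par^[k] x = y i) →
      N.card ≤ d * thr d i) ∧
    (∀ i < m, ∃ x ∈ S, sp x ∧ (∃ k, par^[k] x = y (i + 1)) ∧ ∀ k, par^[k] x ≠ y i) ∧
    (∀ i < m, ∃ k, IsNode S r par sp (par^[k + 1] (y i)) ∧
      ∃ k', par^[k'] (par^[k + 1] (y i)) = y (i + 1))

/-- SEL (selection lemma) -/
def S_SEL : Prop := ∀ (M : ℕ → ℕ) (n : ℕ), ∃ m : ℕ, ∀ C : ℕ → ℕ → Prop,
  (∀ i ≤ m, ∀ T : Finset ℕ, (∀ k ∈ T, i + 2 ≤ k ∧ k ≤ m ∧ C i k) → T.card ≤ M i) →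
  ∃ s : ℕ → ℕ, (∀ j < n, s j < s (j + 1)) ∧ s n ≤ m ∧
    ∀ j k, j < n → s (j + 1) < k → k ≤ s n → ¬ C (s j) k

/-- PIECES -/
def S_PIECES : Prop := ∀ d K L N : ℕ, ∃ T0 : ℕ, ∀ (V : Type) [Fintype V] (G : SimpleGraph V)
  (p : ℕ → V) (l : ℕ), G.Connected → DegLE G d → ∀ S0 Z : Finset V,
  (G.induce (S0 : Set V)).Connected → (S0 : Set V) ⊆ Om G p l K → Z ⊆ S0 →
  (∀ z ∈ Z, Sp G p l K z) → T0 ≤ Z.card → ∃ D : ℕ → Set V, Pieces G p l K L N D

/-- ES (Erdős–Szekeres) -/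
def S_ES : Prop := ∀ (t : ℕ) (f : ℕ → ℕ), (∀ i j, i < j → j ≤ t * t → f i ≠ f j) →
  ∃ g : ℕ → ℕ, (∀ i j, i < j → j ≤ t → g i < g j) ∧ (∀ i ≤ t, g i ≤ t * t) ∧
    ((∀ i j, i < j → j ≤ t → f (g i) < f (g j)) ∨ (∀ i j, i < j → j ≤ t → f (g j) < f (g i)))

/-- GRID: a fat minor of the `2 × t` grid from its parts. -/
def S_GRID : Prop := ∀ (V : Type) (G : SimpleGraph V) (K t : ℕ) (B L : Bool → ℕ → Set V)
  (R : ℕ → Set V),
  (∀ b, ∀ i < t, (G.induce (B b i)).Connected) →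
  (∀ b, ∀ i, i + 1 < t → ∃ (u v : V) (q : G.Walk u v), q.IsPath ∧ L b i = {z | z ∈ q.support} ∧
    u ∈ B b i ∧ v ∈ B b (i + 1) ∧ ∀ z ∈ q.support, z ∈ B b i ∪ B b (i + 1) → z = u ∨ z = v) →
  (∀ i < t, ∃ (u v : V) (q : G.Walk u v), q.IsPath ∧ R i = {z | z ∈ q.support} ∧
    u ∈ B false i ∧ v ∈ B true i ∧ ∀ z ∈ q.support, z ∈ B false i ∪ B true i → z = u ∨ z = v) →
  (∀ b, ∀ i j, i < j → j < t → FarS G K (B b i) (B b j)) →
  (∀ i < t, ∀ j < t, FarS G K (B false i) (B true j)) →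
  (∀ b, ∀ i j, i < j → j + 1 < t → FarS G K (L b i) (L b j)) →
  (∀ i, i + 1 < t → ∀ j, j + 1 < t → FarS G K (L false i) (L true j)) →
  (∀ i j, i < j → j < t → FarS G K (R i) (R j)) →
  (∀ b, ∀ i < t, ∀ j, j + 1 < t → FarS G K (R i) (L b j)) →
  (∀ b, ∀ i < t, ∀ j, j + 1 < t → i ≠ j → i ≠ j + 1 → FarS G K (B b i) (L b j)) →
  (∀ b, ∀ i < t, ∀ j, j + 1 < t → FarS G K (B b i) (L (!b) j)) →
  (∀ b, ∀ i < t, ∀ j < t, i ≠ j → FarS G K (B b i) (R j)) →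
  HasFatMinor K (pathGraph 2 □ pathGraph t) G

/-- LINK: a path from `D (j+2)` to `D (j'-2)` through the pieces in between. -/
def S_LINK : Prop := ∀ (V : Type) (G : SimpleGraph V) (N : ℕ) (D : ℕ → Set V),
  (∀ j < N, (G.induce (D j)).Connected) →
  (∀ j, j + 1 < N → ∃ a ∈ D j, ∃ b ∈ D (j + 1), G.Adj a b) →
  (∀ j k, j < k → k < N → Disjoint (D j) (D k)) →
  ∀ j k, j + 2 ≤ k → k < N → ∃ (u v : V) (q : G.Walk u v), q.IsPath ∧ u ∈ D j ∧ v ∈ D k ∧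
    ∀ z ∈ q.support, z = u ∨ z = v ∨ ∃ i, j < i ∧ i < k ∧ z ∈ D i

/-- RUNG: a geodesic from a set `B` to the nearest vertex of the path, cut at its last vertex
in `B`. -/
def S_RUNG : Prop := ∀ (V : Type) (G : SimpleGraph V) (p : ℕ → V) (l K : ℕ) (B : Set V) (x : V),
  G.Connected → 1 ≤ K → IsoSeq G p l → B ⊆ Om G p l K → x ∈ B →
  ∃ i ≤ l, (∀ i' ≤ l, G.dist x (p i) ≤ G.dist x (p i')) ∧
    ∃ (u : V) (q : G.Walk u (p i)), q.IsPath ∧ u ∈ B ∧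
      (∀ z ∈ q.support, z ∈ B → z = u) ∧
      (∀ z ∈ q.support, ∀ i' ≤ l, z = p i' → i' = i) ∧
      (∀ z ∈ q.support, G.dist x z + G.dist z (p i) = G.dist x (p i)) ∧
      (∀ z ∈ q.support, ∀ i' ≤ l, G.dist z (p i) ≤ G.dist z (p i'))

/-- LADDER -/
def S_LADDER : Prop := ∀ t K : ℕ, 1 ≤ K → ∃ N : ℕ, ∀ (V : Type) [Fintype V] (G : SimpleGraph V)
  (p : ℕ → V) (l : ℕ), G.Connected → IsoSeq G p l →
  (∃ D : ℕ → Set V, Pieces G p l K (12 * K) N D) →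
  HasFatMinor K (pathGraph 2 □ pathGraph t) G

/-- FINAL -/
def S_FINAL : Prop := ∃ f : ℕ → ℕ → ℕ → ℕ, ∀ d t K : ℕ, 1 ≤ K → ∀ (V : Type) [Fintype V]
  (G : SimpleGraph V) [DecidableRel G.Adj], G.Connected → G.maxDegree ≤ d →
  ¬ HasFatMinor K (pathGraph 2 □ pathGraph t) G →
  sipco G ≤ f d t K ∧ ipco G ≤ f d t K ∧ ∀ v, RootCover G v (f d t K)

end FL11
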